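import Mathlib

set_option autoImplicit false

namespace Pool.Agent.TH8

open PowerSeries

/-- number of `±1` paths of length `n` from `j` to `0` -/
def zz : ℕ → ℤ → ℤ
  | 0, j => if j = 0 then 1 else 0
  | n + 1, j => zz n (j + 1) + zz n (j - 1)

lemma zz_succ (n : ℕ) (j : ℤ) : zz (n + 1) j = zz n (j + 1) + zz n (j - 1) := rfl

lemma zz_big (n : ℕ) : ∀ j : ℤ, (n : ℤ) < j → zz n j = 0 := by
  induction n with
  | zero =>
    intro j hj
    have : j ≠ 0 := by
      rintro rfl
      simp at hj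
    simp [zz, this]
  | succ n ih =>
    intro j hj
    push_cast at hj
    rw [zz_succ, ih _ (by omega), ih _ (by omega), add_zero]

lemma zz_choose (n : ℕ) : ∀ i : ℕ, zz n ((n : ℤ) - 2 * i) = (n.choose i : ℤ) := by
  induction n with
  | zero =>
    intro i
    cases i with
    | zero => simp [zz]
    | succ i =>
      have : ((0 : ℕ) : ℤ) - 2 * ((i + 1 : ℕ) : ℤ) ≠ 0 := by push_cast; omega
      simp only [zz, if_neg this]
      simp
  | succ n ih =>
    intro i
    rw [zz_succ]
    cases i with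
    | zero =>
      have h1 : ((n + 1 : ℕ) : ℤ) - 2 * ((0 : ℕ) : ℤ) + 1 = (n : ℤ) + 2 := by push_cast; ring
      have h2 : ((n + 1 : ℕ) : ℤ) - 2 * ((0 : ℕ) : ℤ) - 1 = (n : ℤ) - 2 * ((0 : ℕ) : ℤ) := by
        push_cast; ring
      rw [h1, h2, ih, zz_big n _ (by omega)]
      simp
    | succ i =>
      have h1 : ((n + 1 : ℕ) : ℤ) - 2 * ((i + 1 : ℕ) : ℤ) + 1 = (n : ℤ) - 2 * (i : ℤ) := by
        push_cast; ring
      have h2 : ((n + 1 : ℕ) : ℤ) - 2 * ((i + 1 : ℕ) : ℤ) - 1 =
          (n : ℤ) - 2 * ((i + 1 : ℕ) : ℤ) := by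
        push_cast; ring
      rw [h1, h2, ih, ih, Nat.choose_succ_succ]
      push_cast
      ring

lemma zz_odd (n : ℕ) : ∀ j : ℤ, Odd ((n : ℤ) + j) → zz n j = 0 := by
  induction n with
  | zero =>
    intro j hj
    have : j ≠ 0 := by
      rintro rfl
      simp at hj
    simp [zz, this]
  | succ n ih =>
    intro j hj
    push_cast at hj
    rw [zz_succ, ih, ih, add_zero]
    · have : (n : ℤ) + (j - 1) = ((n : ℤ) + 1 + j) - 2 := by ring
      rw [this]
      exact hj.sub_even even_two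
    · have : (n : ℤ) + (j + 1) = ((n : ℤ) + 1 + j) := by ring
      rw [this]
      exact hj

lemma zz_even (m : ℕ) : zz (2 * m) 0 = (m.centralBinom : ℤ) := by
  have := zz_choose (2 * m) m
  have h : ((2 * m : ℕ) : ℤ) - 2 * (m : ℤ) = 0 := by push_cast; ring
  rw [h] at this
  rw [this, Nat.centralBinom_eq_two_mul_choose]

lemma zz_rec (n : ℕ) : ((n : ℤ) + 2) * zz (n + 2) 0 = 4 * ((n : ℤ) + 1) * zz n 0 := by
  rcases Nat.even_or_odd n with ⟨m, hm⟩ | ⟨m, hm⟩
  · have h1 : n = 2 * m := by omega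
    have h2 : n + 2 = 2 * (m + 1) := by omega
    rw [h2, zz_even, h1, zz_even]
    have := Nat.succ_mul_centralBinom_succ m
    have h3 : ((m : ℤ) + 1) * ((m + 1).centralBinom : ℤ) =
        2 * (2 * (m : ℤ) + 1) * (m.centralBinom : ℤ) := by exact_mod_cast this
    push_cast
    linear_combination 2 * h3
  · rw [zz_odd (n + 2) 0, zz_odd n 0]
    · ring
    · rw [add_zero]
      exact ⟨m, by omega⟩
    · rw [add_zero]
      exact ⟨m + 1, by push_cast; omega⟩

/-- generating function of the returning paths -/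
noncomputable def ZZ : PowerSeries ℚ := PowerSeries.mk fun n => (zz n 0 : ℚ)

lemma ZZ_ode : (d⁄dX ℚ ZZ) * (1 - 4 * X ^ 2) = 4 * X * ZZ := by
  ext n
  have e1 : (d⁄dX ℚ ZZ) * (1 - 4 * X ^ 2) = d⁄dX ℚ ZZ - 4 * ((d⁄dX ℚ ZZ) * X ^ 2) := by ring
  have e2 : 4 * X * ZZ = 4 * (ZZ * X) := by ring
  have h4 : (4 : PowerSeries ℚ) = C (4 : ℚ) := (map_ofNat C 4).symm
  rw [e1, e2, h4, map_sub, coeff_C_mul, coeff_C_mul, coeff_derivative]
  cases n with
  | zero =>
    simp [ZZ, coeff_mul_X_pow']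
    simp [zz]
  | succ n =>
    rw [coeff_succ_mul_X]
    cases n with
    | zero =>
      simp [ZZ, coeff_mul_X_pow']
      simp [zz]
      norm_num
    | succ n =>
      have h := zz_rec (n + 1)
      rw [coeff_mul_X_pow', if_pos (by omega), coeff_derivative]
      simp only [ZZ, coeff_mk]
      have h2 : n + 1 + 1 - 2 = n := by omega
      rw [h2]
      have h3 : (((n : ℚ) + 1) + 2) * (zz (n + 1 + 2) 0 : ℚ) =
          4 * (((n : ℚ) + 1) + 1) * (zz (n + 1) 0 : ℚ) := by exact_mod_cast h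
      have h5 : n + 1 + 1 + 1 = n + 1 + 2 := rfl
      rw [h5]
      push_cast
      linear_combination h3

lemma ZZ_sq : ZZ ^ 2 * (1 - 4 * X ^ 2) = 1 := by
  apply PowerSeries.derivative.ext
  · have h : d⁄dX ℚ (ZZ ^ 2 * (1 - 4 * X ^ 2)) = 0 := by
      have h1 : d⁄dX ℚ (ZZ ^ 2 * (1 - 4 * X ^ 2)) =
          2 * ZZ * (d⁄dX ℚ ZZ * (1 - 4 * X ^ 2)) - 8 * X * ZZ ^ 2 := by
        have h4 : (4 : PowerSeries ℚ) = C (4 : ℚ) := (map_ofNat C 4).symm
        rw [h4]
        simp only [Derivation.leibniz, Derivation.leibniz_pow, map_sub, derivative_C,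
          derivative_X, smul_eq_mul, Derivation.map_one_eq_zero]
        rw [← h4]
        simp
        ring
      rw [h1, ZZ_ode]
      ring
    rw [h]
    simp
  · simp [ZZ, zz]

lemma coe_num (n : ℕ) [n.AtLeastTwo] :
    (((OfNat.ofNat n : Polynomial ℚ)) : PowerSeries ℚ) = (OfNat.ofNat n : PowerSeries ℚ) :=
  map_ofNat (Polynomial.coeToPowerSeries.ringHom (R := ℚ)) n

lemma coe_two : (((2 : Polynomial ℚ)) : PowerSeries ℚ) = 2 := coe_num 2
lemma coe_four : (((4 : Polynomial ℚ)) : PowerSeries ℚ) = 4 := coe_num 4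
lemma coe_sixteen : (((16 : Polynomial ℚ)) : PowerSeries ℚ) = 16 := coe_num 16

/-- The series with the given recursion is not rational. -/
theorem not_rational (a : ℕ → ℤ → ℤ) (h0 : ∀ j, a 0 j = 2 * |j| + 1)
    (hs : ∀ n j, a (n + 1) j = a n (j + 1) + a n (j - 1)) (P Q : Polynomial ℚ) (hQ : Q ≠ 0)
    (h : (Q : PowerSeries ℚ) * PowerSeries.mk (fun n => (a n 0 : ℚ)) = (P : PowerSeries ℚ)) :
    False := by
  have key : ∀ n j, a (n + 1) j = 2 * a n j + 4 * zz n j := by
    intro n
    induction n with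
    | zero =>
      intro j
      rw [hs, h0, h0, h0]
      rcases lt_trichotomy j 0 with hj | rfl | hj
      · rw [abs_of_nonpos (by omega), abs_of_nonpos (by omega), abs_of_nonpos (by omega)]
        simp only [zz, if_neg hj.ne]
        ring
      · simp [zz]
      · rw [abs_of_nonneg (by omega), abs_of_nonneg (by omega), abs_of_nonneg (by omega)]
        simp only [zz, if_neg hj.ne']
        ring
    | succ n ih =>
      intro j
      rw [hs (n + 1) j, ih, ih, zz_succ, hs n j]
      ring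
  set f : PowerSeries ℚ := PowerSeries.mk (fun n => (a n 0 : ℚ)) with hf
  have hrel : f = 1 + 2 * (f * X) + 4 * (ZZ * X) := by
    ext n
    have h2 : (2 : PowerSeries ℚ) = C (2 : ℚ) := (map_ofNat C 2).symm
    have h4 : (4 : PowerSeries ℚ) = C (4 : ℚ) := (map_ofNat C 4).symm
    rw [h2, h4, map_add, map_add, coeff_C_mul, coeff_C_mul]
    cases n with
    | zero => simp [hf, h0]
    | succ n =>
      rw [coeff_succ_mul_X, coeff_succ_mul_X]
      simp only [hf, ZZ, coeff_mk, key n 0]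
      push_cast
      simp [coeff_one]
  set R : Polynomial ℚ := P * (1 - 2 * Polynomial.X) - Q with hR
  have h1 : 4 * X * (Q : PowerSeries ℚ) * ZZ = (R : PowerSeries ℚ) := by
    have h3 : (R : PowerSeries ℚ) = (P : PowerSeries ℚ) * (1 - 2 * X) - (Q : PowerSeries ℚ) := by
      rw [hR]
      push_cast
      rw [coe_two]
    rw [h3, ← h]
    linear_combination (-(Q : PowerSeries ℚ)) * hrel
  have h2 : (16 * Polynomial.X ^ 2 * Q ^ 2 : Polynomial ℚ) = R ^ 2 * (1 - 4 * Polynomial.X ^ 2) := by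
    apply Polynomial.coe_injective
    push_cast
    rw [coe_four, coe_sixteen, ← h1]
    linear_combination (-(16 * X ^ 2 * (Q : PowerSeries ℚ) ^ 2)) * ZZ_sq
  have h3 := congrArg Polynomial.leadingCoeff h2
  rw [Polynomial.leadingCoeff_mul, Polynomial.leadingCoeff_mul, Polynomial.leadingCoeff_mul,
    Polynomial.leadingCoeff_pow, Polynomial.leadingCoeff_pow, Polynomial.leadingCoeff_pow,
    Polynomial.leadingCoeff_X] at h3
  have h16 : (16 : Polynomial ℚ).leadingCoeff = 16 := by
    have : (16 : Polynomial ℚ) = Polynomial.C 16 := (map_ofNat Polynomial.C 16).symm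
    rw [this, Polynomial.leadingCoeff_C]
  have h5 : (1 - 4 * Polynomial.X ^ 2 : Polynomial ℚ).leadingCoeff = -4 := by
    have e : (1 - 4 * Polynomial.X ^ 2 : Polynomial ℚ) =
        Polynomial.C (-4) * Polynomial.X ^ 2 + Polynomial.C 0 * Polynomial.X +
          Polynomial.C 1 := by
      have : (4 : Polynomial ℚ) = Polynomial.C 4 := (map_ofNat Polynomial.C 4).symm
      rw [this]
      simp only [map_neg, map_zero, map_one]
      ring
    rw [e]
    exact Polynomial.leadingCoeff_quadratic (by norm_num)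
  rw [h16, h5] at h3
  have hq : Q.leadingCoeff ≠ 0 := Polynomial.leadingCoeff_ne_zero.2 hQ
  nlinarith [sq_nonneg R.leadingCoeff, sq_pos_of_ne_zero hq]

end Pool.Agent.TH8
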