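import Pool.Agent.TH8.Stable

set_option autoImplicit false
set_option linter.unusedSectionVars false

open CategoryTheory CategoryTheory.MonoidalCategory CategoryTheory.Limits

namespace Pool.Agent.TH8

/-- `M = Ω(k) ⊕ Ω⁻¹(k)` -/
noncomputable def Mo : Rep.{0} F2 G4 := Am 1 ⊞ Bm 1

noncomputable def Tn (n : ℕ) (X : Rep.{0} F2 G4) : Rep.{0} F2 G4 :=
  (fun Y : Rep.{0} F2 G4 => Y ⊗ Mo)^[n] X

lemma Tn_zero (X : Rep.{0} F2 G4) : Tn 0 X = X := rfl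

lemma Tn_succ (n : ℕ) (X : Rep.{0} F2 G4) : Tn (n + 1) X = Tn n (X ⊗ Mo) := rfl

lemma Tn_iso (n : ℕ) : ∀ {X Y : Rep.{0} F2 G4}, (X ≅ Y) → Nonempty (Tn n X ≅ Tn n Y) := by
  induction n with
  | zero => intro X Y e; exact ⟨e⟩
  | succ n ih =>
    intro X Y e
    exact ih (whiskerRightIso e Mo)

attribute [local instance] preservesBinaryBiproducts_of_preservesBiproducts

noncomputable def distribR (X Y M : Rep.{0} F2 G4) : (X ⊞ Y) ⊗ M ≅ (X ⊗ M) ⊞ (Y ⊗ M) :=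
  (tensorRight M).mapBiprod X Y

noncomputable def distribL (M X Y : Rep.{0} F2 G4) : M ⊗ (X ⊞ Y) ≅ (M ⊗ X) ⊞ (M ⊗ Y) :=
  (tensorLeft M).mapBiprod X Y

lemma Tn_biprod (n : ℕ) : ∀ (X Y : Rep.{0} F2 G4), Nonempty (Tn n (X ⊞ Y) ≅ Tn n X ⊞ Tn n Y) := by
  induction n with
  | zero => intro X Y; exact ⟨Iso.refl _⟩
  | succ n ih =>
    intro X Y
    obtain ⟨e1⟩ := Tn_iso n (distribR X Y Mo)
    obtain ⟨e2⟩ := ih (X ⊗ Mo) (Y ⊗ Mo)
    exact ⟨e1 ≪≫ e2⟩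

lemma Tn_proj (n : ℕ) : ∀ (P : Rep.{0} F2 G4), Projective P → Projective (Tn n P) := by
  induction n with
  | zero => intro P h; exact h
  | succ n ih =>
    intro P h
    exact ih _ (projective_tensor P Mo)

instance fd_kron {T S : Type} [AddCommGroup T] [Module F2 T] [AddCommGroup S] [Module F2 S]
    [FiniteDimensional F2 T] [FiniteDimensional F2 S] (X Y : T →ₗ[F2] S) :
    FiniteDimensional F2 (kron X Y).V := inferInstanceAs (FiniteDimensional F2 (T × S))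

instance fd_Am (n : ℕ) : FiniteDimensional F2 (Am n).V := fd_kron _ _
instance fd_Bm (n : ℕ) : FiniteDimensional F2 (Bm n).V := fd_kron _ _

lemma fd_of_iso {X Y : Rep.{0} F2 G4} (e : X ≅ Y) [FiniteDimensional F2 X.V] :
    FiniteDimensional F2 Y.V := Module.Finite.equiv (isoLin e)

instance fd_biprod (X Y : Rep.{0} F2 G4) [FiniteDimensional F2 X.V] [FiniteDimensional F2 Y.V] :
    FiniteDimensional F2 (X ⊞ Y : Rep.{0} F2 G4).V := by
  have : FiniteDimensional F2 (dsum X Y).V := inferInstanceAs (FiniteDimensional F2 (X.V × Y.V))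
  exact fd_of_iso (biprodIso X Y).symm

instance fd_tensor (X Y : Rep.{0} F2 G4) [FiniteDimensional F2 X.V] [FiniteDimensional F2 Y.V] :
    FiniteDimensional F2 (X ⊗ Y : Rep.{0} F2 G4).V :=
  inferInstanceAs (FiniteDimensional F2 (TensorProduct F2 X.V Y.V))

instance fd_Mo : FiniteDimensional F2 Mo.V := fd_biprod _ _

lemma Tn_fd (n : ℕ) : ∀ (X : Rep.{0} F2 G4), FiniteDimensional F2 X.V →
    FiniteDimensional F2 (Tn n X).V := by
  induction n with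
  | zero => intro X h; exact h
  | succ n ih =>
    intro X h
    exact ih _ (fd_tensor X Mo)

/-- the tensor powers have cores of the same dimensions -/
def Eqv (X Y : Rep.{0} F2 G4) : Prop := ∀ n, cZ (Tn n X) = cZ (Tn n Y)

lemma Eqv.symm {X Y : Rep.{0} F2 G4} (h : Eqv X Y) : Eqv Y X := fun n => (h n).symm
lemma Eqv.trans {X Y Z : Rep.{0} F2 G4} (h : Eqv X Y) (h' : Eqv Y Z) : Eqv X Z :=
  fun n => (h n).trans (h' n)

lemma eqv_of_iso {X Y : Rep.{0} F2 G4} (e : X ≅ Y) : Eqv X Y := fun n => by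
  obtain ⟨e'⟩ := Tn_iso n e
  exact cZ_iso e'

lemma cZ_Tn_biprod (n : ℕ) (X Y : Rep.{0} F2 G4) [hX : FiniteDimensional F2 X.V]
    [hY : FiniteDimensional F2 Y.V] : cZ (Tn n (X ⊞ Y)) = cZ (Tn n X) + cZ (Tn n Y) := by
  obtain ⟨e⟩ := Tn_biprod n X Y
  have h1 := Tn_fd n X hX
  have h2 := Tn_fd n Y hY
  rw [cZ_iso e, cZ_biprod]

/-- stable isomorphism -/
def St (X Y : Rep.{0} F2 G4) : Prop :=
  ∃ P₁ P₂ : Rep.{0} F2 G4, Projective P₁ ∧ Projective P₂ ∧ FiniteDimensional F2 P₁.V ∧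
      FiniteDimensional F2 P₂.V ∧ Nonempty (X ⊞ P₁ ≅ Y ⊞ P₂)

lemma eqv_of_st {X Y : Rep.{0} F2 G4} [FiniteDimensional F2 X.V] [FiniteDimensional F2 Y.V]
    (h : St X Y) : Eqv X Y := by
  obtain ⟨P₁, P₂, h1, h2, h3, h4, ⟨e⟩⟩ := h
  intro n
  have := eqv_of_iso e n
  rw [cZ_Tn_biprod, cZ_Tn_biprod] at this
  have hp1 := Tn_proj n P₁ h1
  have hp2 := Tn_proj n P₂ h2
  have hf1 := Tn_fd n P₁ h3
  have hf2 := Tn_fd n P₂ h4
  rw [cZ_projective (Tn n P₁), cZ_projective (Tn n P₂), add_zero, add_zero] at this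
  exact this

lemma st_tensor {X Y : Rep.{0} F2 G4} (h : St X Y) (M : Rep.{0} F2 G4)
    [FiniteDimensional F2 M.V] : St (X ⊗ M) (Y ⊗ M) := by
  obtain ⟨P₁, P₂, h1, h2, h3, h4, ⟨e⟩⟩ := h
  exact ⟨P₁ ⊗ M, P₂ ⊗ M, projective_tensor _ _, projective_tensor _ _, fd_tensor _ _,
    fd_tensor _ _, ⟨(distribR X P₁ M).symm ≪≫ whiskerRightIso e M ≪≫ distribR Y P₂ M⟩⟩

/-- `Bm 0` is the trivial module -/
noncomputable def Bm0Iso : Bm 0 ≅ Am 0 where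
  hom := homXY (Bm 0) (Am 0)
    (LinearMap.inl F2 (Fin 1 → F2) (Fin 0 → F2) ∘ₗ LinearMap.snd F2 (Fin 0 → F2) (Fin 1 → F2))
    (by
      intro v
      refine (congrArg (LinearMap.inl F2 (Fin 1 → F2) (Fin 0 → F2) ∘ₗ
        LinearMap.snd F2 (Fin 0 → F2) (Fin 1 → F2)) (XX_kron (sB 0) (cB 0) v.1 v.2)).trans ?_
      refine Eq.trans ?_ (XX_kron (sA 0) (cA 0) v.2 0).symm
      refine Prod.ext ?_ (Subsingleton.elim _ _)
      funext i
      rw [Subsingleton.elim i 0]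
      rfl)
    (by
      intro v
      refine (congrArg (LinearMap.inl F2 (Fin 1 → F2) (Fin 0 → F2) ∘ₗ
        LinearMap.snd F2 (Fin 0 → F2) (Fin 1 → F2)) (YY_kron (sB 0) (cB 0) v.1 v.2)).trans ?_
      refine Eq.trans ?_ (YY_kron (sA 0) (cA 0) v.2 0).symm
      refine Prod.ext ?_ (Subsingleton.elim _ _)
      funext i
      rw [Subsingleton.elim i 0]
      exact cB_last 0 v.1)
  inv := homXY (Am 0) (Bm 0)
    (LinearMap.inr F2 (Fin 0 → F2) (Fin 1 → F2) ∘ₗ LinearMap.fst F2 (Fin 1 → F2) (Fin 0 → F2))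
    (by
      intro v
      refine (congrArg (LinearMap.inr F2 (Fin 0 → F2) (Fin 1 → F2) ∘ₗ
        LinearMap.fst F2 (Fin 1 → F2) (Fin 0 → F2)) (XX_kron (sA 0) (cA 0) v.1 v.2)).trans ?_
      refine Eq.trans ?_ (XX_kron (sB 0) (cB 0) 0 v.1).symm
      rw [map_zero]
      rfl)
    (by
      intro v
      refine (congrArg (LinearMap.inr F2 (Fin 0 → F2) (Fin 1 → F2) ∘ₗ
        LinearMap.fst F2 (Fin 1 → F2) (Fin 0 → F2)) (YY_kron (sA 0) (cA 0) v.1 v.2)).trans ?_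
      refine Eq.trans ?_ (YY_kron (sB 0) (cB 0) 0 v.1).symm
      rw [map_zero]
      rfl)
  hom_inv_id := by
    ext v
    exact Prod.ext (Subsingleton.elim _ _) rfl
  inv_hom_id := by
    ext v
    exact Prod.ext rfl (Subsingleton.elim _ _)

/-- `Ω^j(k)` for all integers `j` -/
noncomputable def LL : ℤ → Rep.{0} F2 G4
  | Int.ofNat n => Am n
  | Int.negSucc n => Bm (n + 1)

instance fd_LL (j : ℤ) : FiniteDimensional F2 (LL j).V := by
  cases j with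
  | ofNat n => exact fd_Am n
  | negSucc n => exact fd_Bm _

lemma cZ_LL (j : ℤ) : cZ (LL j) = 2 * |j| + 1 := by
  cases j with
  | ofNat n =>
    change cZ (kron (sA n) (cA n)) = _
    rw [cZ_kron]
    simp
    ring
  | negSucc n =>
    change cZ (kron (sB (n + 1)) (cB (n + 1))) = _
    rw [cZ_kron]
    simp [Int.negSucc_eq]
    rw [abs_of_nonpos (by omega)]
    ring

lemma st_LL_A (j : ℤ) : St (LL j ⊗ Am 1) (LL (j + 1)) := by
  cases j with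
  | ofNat n => exact step (sesA n)
  | negSucc n =>
    cases n with
    | zero =>
      obtain ⟨P₁, P₂, h1, h2, h3, h4, ⟨e⟩⟩ := step (sesB 0)
      exact ⟨P₁, P₂, h1, h2, h3, h4, ⟨e ≪≫ biprod.mapIso Bm0Iso (Iso.refl _)⟩⟩
    | succ n => exact step (sesB (n + 1))

lemma eqv_LL_A (j : ℤ) : Eqv (LL j ⊗ Am 1) (LL (j + 1)) := eqv_of_st (st_LL_A j)

lemma eqv_LL_B (j : ℤ) : Eqv (LL j ⊗ Bm 1) (LL (j - 1)) := by
  have h1 : St ((LL (j - 1) ⊗ Am 1) ⊗ Bm 1) (LL j ⊗ Bm 1) := by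
    have := st_tensor (st_LL_A (j - 1)) (Bm 1)
    rwa [sub_add_cancel] at this
  have h2 : St ((Bm 1 ⊗ Am 1) ⊗ LL (j - 1)) (Am 0 ⊗ LL (j - 1)) :=
    st_tensor (st_LL_A (Int.negSucc 0)) (LL (j - 1))
  have e1 : (LL (j - 1) ⊗ Am 1) ⊗ Bm 1 ≅ (Bm 1 ⊗ Am 1) ⊗ LL (j - 1) :=
    (α_ _ _ _) ≪≫ (whiskerLeftIso _ (β_ _ _)) ≪≫ (β_ _ _)
  have e2 : Am 0 ⊗ LL (j - 1) ≅ LL (j - 1) := whiskerRightIso Am0Iso _ ≪≫ λ_ _
  exact (eqv_of_st h1).symm.trans ((eqv_of_iso e1).trans ((eqv_of_st h2).trans (eqv_of_iso e2)))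

theorem recursion (n : ℕ) (j : ℤ) :
    cZ (Tn (n + 1) (LL j)) = cZ (Tn n (LL (j + 1))) + cZ (Tn n (LL (j - 1))) := by
  rw [Tn_succ]
  have e : LL j ⊗ Mo ≅ (LL j ⊗ Am 1) ⊞ (LL j ⊗ Bm 1) := distribL _ _ _
  rw [eqv_of_iso e n, cZ_Tn_biprod, eqv_LL_A j n, eqv_LL_B j n]

end Pool.Agent.TH8
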