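import Pool.Agent.TH8.Arith.Str

/-!
# Job 103 (MYC-4): the provability relation is arithmetical
-/

set_option autoImplicit false

namespace Pool.Agent.TH672

/-- The relation `Γ ⊢^m φ` is represented by a formula. -/
theorem exists_represents : ∃ P : Form, Represents P := Pool.Agent.TH8.Arith.exists_represents

end Pool.Agent.TH672

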