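import Mathlib

set_option autoImplicit false

open CategoryTheory CategoryTheory.Limits

namespace Pool.Agent.TH8

universe v u

variable {C : Type u} [Category.{v} C] [Preadditive C] [HasBinaryBiproducts C]

/-- Schanuel's lemma. -/
theorem schanuel {K₁ P K₂ Q W : C} (i₁ : K₁ ⟶ P) (p₁ : P ⟶ W) (w₁ : i₁ ≫ p₁ = 0)
    [Mono i₁] [Epi p₁]
    (h₁ : ∀ {Z : C} (f : Z ⟶ P), f ≫ p₁ = 0 → ∃ l : Z ⟶ K₁, l ≫ i₁ = f)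
    (i₂ : K₂ ⟶ Q) (p₂ : Q ⟶ W) (w₂ : i₂ ≫ p₂ = 0) [Mono i₂] [Epi p₂]
    (h₂ : ∀ {Z : C} (f : Z ⟶ Q), f ≫ p₂ = 0 → ∃ l : Z ⟶ K₂, l ≫ i₂ = f)
    [Projective P] [Projective Q] :
    Nonempty (K₁ ⊞ Q ≅ K₂ ⊞ P) := by
  let a : P ⟶ Q := Projective.factorThru p₁ p₂
  have ha : a ≫ p₂ = p₁ := Projective.factorThru_comp _ _
  let b : Q ⟶ P := Projective.factorThru p₂ p₁
  have hb : b ≫ p₁ = p₂ := Projective.factorThru_comp _ _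
  have c₂ : ((biprod.fst : K₁ ⊞ Q ⟶ K₁) ≫ i₁ ≫ a + biprod.snd ≫ (𝟙 Q - b ≫ a)) ≫ p₂ = 0 := by
    simp [ha, hb, w₁]
  have c₁ : ((biprod.fst : K₂ ⊞ P ⟶ K₂) ≫ i₂ ≫ b + biprod.snd ≫ (𝟙 P - a ≫ b)) ≫ p₁ = 0 := by
    simp [ha, hb, w₂]
  obtain ⟨l₂, hl₂⟩ := h₂ _ c₂
  obtain ⟨l₁, hl₁⟩ := h₁ _ c₁
  refine ⟨⟨biprod.lift l₂ (biprod.fst ≫ i₁ - biprod.snd ≫ b),
    biprod.lift l₁ (biprod.fst ≫ i₂ - biprod.snd ≫ a), ?_, ?_⟩⟩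
  · apply biprod.hom_ext
    · rw [← cancel_mono i₁]
      simp [hl₁, reassoc_of% hl₂]
      abel
    · simp [hl₂]
  · apply biprod.hom_ext
    · rw [← cancel_mono i₂]
      simp [hl₂, reassoc_of% hl₁]
      abel
    · simp [hl₁]

end Pool.Agent.TH8
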