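import Pool.Agent.TH8.Decomp
import Pool.Agent.TH8.Schanuel

set_option autoImplicit false
set_option linter.unusedSectionVars false

open CategoryTheory CategoryTheory.MonoidalCategory CategoryTheory.Limits

namespace Pool.Agent.TH8

lemma nrm_comm {A B : Rep.{0} F2 G4} (f : A ⟶ B) (v : A.V) :
    f.hom (nrm A v) = nrm B (f.hom v) := by
  rw [← nrm_eq_sum, ← nrm_eq_sum, map_sum]
  exact Finset.sum_congr rfl fun g _ => Rep.hom_comm_apply f g v

lemma finrank_nrm_iso {A B : Rep.{0} F2 G4} (e : A ≅ B) :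
    Module.finrank F2 (LinearMap.range (nrm A)) = Module.finrank F2 (LinearMap.range (nrm B)) := by
  have h : LinearMap.range (nrm B) =
      (LinearMap.range (nrm A)).map (isoLin e).toLinearMap := by
    ext w
    constructor
    · rintro ⟨v, rfl⟩
      refine ⟨nrm A (e.inv.hom v), ⟨_, rfl⟩, ?_⟩
      change e.hom.hom (nrm A (e.inv.hom v)) = _
      rw [nrm_comm, Rep.hom_inv_apply]
    · rintro ⟨_, ⟨v, rfl⟩, rfl⟩
      refine ⟨e.hom.hom v, ?_⟩
      change _ = e.hom.hom (nrm A v)
      rw [nrm_comm]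
  rw [h]
  exact ((isoLin e).finrank_map_eq _).symm

lemma cZ_iso {A B : Rep.{0} F2 G4} (e : A ≅ B) : cZ A = cZ B := by
  unfold cZ
  rw [finrank_nrm_iso e, (isoLin e).finrank_eq]

lemma cZ_dsum (A B : Rep.{0} F2 G4) [FiniteDimensional F2 A.V] [FiniteDimensional F2 B.V] :
    cZ (dsum A B) = cZ A + cZ B := by
  have h1 : Module.finrank F2 (dsum A B).V = Module.finrank F2 A.V + Module.finrank F2 B.V :=
    Module.finrank_prod
  have h2 : Module.finrank F2 (LinearMap.range (nrm (dsum A B))) =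
      Module.finrank F2 (LinearMap.range (nrm A)) +
        Module.finrank F2 (LinearMap.range (nrm B)) := by
    have h3 : LinearMap.range (nrm (dsum A B)) =
        (LinearMap.range (nrm A)).prod (LinearMap.range (nrm B)) := by
      have h4 : nrm (dsum A B) = (nrm A).prodMap (nrm B) := rfl
      rw [h4]
      exact LinearMap.range_prodMap _ _
    rw [h3, ← Module.finrank_prod]
    let e : ((LinearMap.range (nrm A)).prod (LinearMap.range (nrm B)) :
        Submodule F2 (A.V × B.V)) ≃ₗ[F2]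
        (LinearMap.range (nrm A)) × (LinearMap.range (nrm B)) :=
      { toFun := fun x => (⟨x.1.1, x.2.1⟩, ⟨x.1.2, x.2.2⟩)
        map_add' := fun _ _ => rfl
        map_smul' := fun _ _ => rfl
        invFun := fun x => ⟨(x.1.1, x.2.1), x.1.2, x.2.2⟩
        left_inv := fun _ => rfl
        right_inv := fun _ => rfl }
    exact e.finrank_eq
  unfold cZ
  rw [h1, h2]
  push_cast
  ring

lemma cZ_biprod (A B : Rep.{0} F2 G4) [FiniteDimensional F2 A.V] [FiniteDimensional F2 B.V] :
    cZ (A ⊞ B) = cZ A + cZ B := by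
  rw [cZ_iso (biprodIso A B), cZ_dsum]

lemma cZ_le_finrank (A : Rep.{0} F2 G4) : cZ A ≤ Module.finrank F2 A.V := by
  unfold cZ
  have : (0 : ℤ) ≤ (Module.finrank F2 (LinearMap.range (nrm A)) : ℤ) := by positivity
  linarith

lemma cZ_nonneg (A : Rep.{0} F2 G4) [FiniteDimensional F2 A.V] : 0 ≤ cZ A := by
  obtain ⟨N, P, -, -, h⟩ := exists_decomp A
  rw [← h]
  positivity

lemma cZ_projective (P : Rep.{0} F2 G4) [Projective P] [FiniteDimensional F2 P.V] :
    cZ P = 0 := by
  apply le_antisymm _ (cZ_nonneg P)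
  have := finrank_le_of_projective P
  unfold cZ
  have h2 : (Module.finrank F2 P.V : ℤ) ≤
    4 * (Module.finrank F2 (LinearMap.range (nrm P)) : ℤ) := by exact_mod_cast this
  linarith

lemma fd_of_iso_biprod {W A B : Rep.{0} F2 G4} [FiniteDimensional F2 W.V] (e : W ≅ A ⊞ B) :
    FiniteDimensional F2 A.V ∧ FiniteDimensional F2 B.V := by
  constructor
  · have h : Mono (biprod.inl ≫ e.inv : A ⟶ W) := inferInstance
    exact FiniteDimensional.of_injective (biprod.inl ≫ e.inv : A ⟶ W).hom.toLinearMap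
      ((Rep.mono_iff_injective _).1 h)
  · have h : Mono (biprod.inr ≫ e.inv : B ⟶ W) := inferInstance
    exact FiniteDimensional.of_injective (biprod.inr ≫ e.inv : B ⟶ W).hom.toLinearMap
      ((Rep.mono_iff_injective _).1 h)

/-- the dimension of the core, as in the frozen statement -/
theorem sInf_eq_cZ (W : Rep.{0} F2 G4) [FiniteDimensional F2 W.V] :
    ((sInf {d : ℕ | ∃ N P' : Rep.{0} F2 G4, Projective P' ∧ Nonempty (W ≅ N ⊞ P') ∧
      Module.finrank F2 N.V = d} : ℕ) : ℤ) = cZ W := by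
  obtain ⟨N, P, hP, hiso, hN⟩ := exists_decomp W
  have hmem : Module.finrank F2 N.V ∈ {d : ℕ | ∃ N P' : Rep.{0} F2 G4, Projective P' ∧
      Nonempty (W ≅ N ⊞ P') ∧ Module.finrank F2 N.V = d} := ⟨N, P, hP, hiso, rfl⟩
  apply le_antisymm
  · rw [← hN]
    exact_mod_cast Nat.sInf_le hmem
  · obtain ⟨N', P', hP', ⟨e⟩, hN'⟩ := Nat.sInf_mem ⟨_, hmem⟩
    rw [← hN']
    obtain ⟨h1, h2⟩ := fd_of_iso_biprod e
    rw [cZ_iso e, cZ_biprod, cZ_projective P', add_zero]
    exact cZ_le_finrank N'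

end Pool.Agent.TH8
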