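import Pool.Agent.TH8.V4

set_option autoImplicit false
set_option linter.unusedSectionVars false

open CategoryTheory CategoryTheory.MonoidalCategory CategoryTheory.Limits

namespace Pool.Agent.TH8

section general

universe u

variable {k : Type u} [Field k] {G : Type u} [Group G] [Fintype G]

/-- linear equivalence underlying an isomorphism -/
noncomputable def isoLin {A B : Rep.{u} k G} (e : A ≅ B) : A.V ≃ₗ[k] B.V :=
  { e.hom.hom.toLinearMap with
    invFun := e.inv.hom
    left_inv := fun x => Rep.inv_hom_apply _ _ e x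
    right_inv := fun x => Rep.hom_inv_apply _ _ e x }

lemma isoLin_apply {A B : Rep.{u} k G} (e : A ≅ B) (x : A.V) : isoLin e x = e.hom.hom x := rfl

/-- the explicit direct sum -/
noncomputable abbrev dsum (A B : Rep.{u} k G) : Rep.{u} k G := Rep.of (A.ρ.prod B.ρ)

noncomputable def biprodIso (A B : Rep.{u} k G) : A ⊞ B ≅ dsum A B where
  hom := biprod.desc (Rep.ofHom (.inl k A.ρ B.ρ)) (Rep.ofHom (.inr k A.ρ B.ρ))
  inv := Rep.ofHom (.fst k A.ρ B.ρ) ≫ biprod.inl + Rep.ofHom (.snd k A.ρ B.ρ) ≫ biprod.inr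
  hom_inv_id := by
    apply biprod.hom_ext'
    · have h1 : (Rep.ofHom (.inl k A.ρ B.ρ) : A ⟶ dsum A B) ≫ Rep.ofHom (.fst k A.ρ B.ρ) = 𝟙 A := by
        ext1; simp
      have h2 : (Rep.ofHom (.inl k A.ρ B.ρ) : A ⟶ dsum A B) ≫ Rep.ofHom (.snd k A.ρ B.ρ) = 0 := by
        ext1; simp [Rep.zero_hom]
      rw [Preadditive.comp_add, Preadditive.comp_add]
      rw [biprod.inl_desc_assoc, biprod.inl_desc_assoc, reassoc_of% h1, reassoc_of% h2]
      simp
    · have h1 : (Rep.ofHom (.inr k A.ρ B.ρ) : B ⟶ dsum A B) ≫ Rep.ofHom (.fst k A.ρ B.ρ) = 0 := by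
        ext1; simp [Rep.zero_hom]
      have h2 : (Rep.ofHom (.inr k A.ρ B.ρ) : B ⟶ dsum A B) ≫ Rep.ofHom (.snd k A.ρ B.ρ) = 𝟙 B := by
        ext1; simp
      rw [Preadditive.comp_add, Preadditive.comp_add]
      rw [biprod.inr_desc_assoc, biprod.inr_desc_assoc, reassoc_of% h1, reassoc_of% h2]
      simp
  inv_hom_id := by
    rw [Preadditive.add_comp]
    simp only [Category.assoc, biprod.inl_desc, biprod.inr_desc]
    ext1
    simp [Rep.add_hom]

lemma finrank_biprod (A B : Rep.{u} k G) [FiniteDimensional k A.V] [FiniteDimensional k B.V] :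
    Module.finrank k (A ⊞ B : Rep.{u} k G).V = Module.finrank k A.V + Module.finrank k B.V := by
  rw [(isoLin (biprodIso A B)).finrank_eq]
  exact Module.finrank_prod

/-- a retract splits off -/
noncomputable def splitIso {W P : Rep.{u} k G} (i : P ⟶ W) (r : W ⟶ P) (h : i ≫ r = 𝟙 P) :
    W ≅ kernel r ⊞ P where
  hom := biprod.lift (kernel.lift r (𝟙 W - r ≫ i) (by simp [h])) r
  inv := biprod.desc (kernel.ι r) i
  hom_inv_id := by
    rw [biprod.lift_desc]
    simp
  inv_hom_id := by
    apply biprod.hom_ext'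
    · apply biprod.hom_ext
      · rw [← cancel_mono (kernel.ι r)]
        simp
      · simp
    · apply biprod.hom_ext
      · rw [← cancel_mono (kernel.ι r)]
        simp [reassoc_of% h]
      · simp [h]

/-- map out of an induced module -/
noncomputable def indMap (W : Rep.{u} k G) {V : Type u} [AddCommGroup V] [Module k V]
    (l : V →ₗ[k] W.V) : (Rep.of (Fn k G V) : Rep.{u} k G) ⟶ W :=
  Rep.ofHom
    { toFun := fun f => ∑ g : G, W.ρ g (l (f g))
      map_add' := by
        intro a b
        simp [Finset.sum_add_distrib]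
      map_smul' := by
        intro c a
        simp [Finset.smul_sum]
      isIntertwining' := by
        intro h
        ext f
        simp only [LinearMap.coe_comp, LinearMap.coe_mk, AddHom.coe_mk, Function.comp_apply,
          Fn_apply, map_sum]
        rw [← Equiv.sum_comp (Equiv.mulLeft h)]
        simp [map_mul] }

lemma indMap_apply (W : Rep.{u} k G) {V : Type u} [AddCommGroup V] [Module k V]
    (l : V →ₗ[k] W.V) (f : G → V) : (indMap W l).hom f = ∑ g : G, W.ρ g (l (f g)) := rfl

/-- map into a coinduced module -/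
noncomputable def coindMap (W : Rep.{u} k G) {V : Type u} [AddCommGroup V] [Module k V]
    (l : W.V →ₗ[k] V) : W ⟶ (Rep.of (Fn k G V) : Rep.{u} k G) :=
  Rep.ofHom
    { toFun := fun w g => l (W.ρ g⁻¹ w)
      map_add' := by
        intro a b
        ext g
        simp
      map_smul' := by
        intro c a
        ext g
        simp
      isIntertwining' := by
        intro h
        ext w g
        simp only [LinearMap.coe_comp, LinearMap.coe_mk, AddHom.coe_mk, Function.comp_apply,
          Fn_apply]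
        rw [← Module.End.mul_apply, ← map_mul]
        simp }

lemma coindMap_apply (W : Rep.{u} k G) {V : Type u} [AddCommGroup V] [Module k V]
    (l : W.V →ₗ[k] V) (w : W.V) (g : G) : (coindMap W l).hom w g = l (W.ρ g⁻¹ w) := rfl

end general

lemma exists_fixed (W : Rep.{0} F2 G4) (K : Submodule F2 W.V) (hX : ∀ v ∈ K, XX W v ∈ K)
    (hY : ∀ v ∈ K, YY W v ∈ K) (v : W.V) (hv : v ∈ K) (hv0 : v ≠ 0) :
    ∃ w ∈ K, w ≠ 0 ∧ XX W w = 0 ∧ YY W w = 0 := by
  obtain ⟨v1, h1, h10, h1X⟩ : ∃ w ∈ K, w ≠ 0 ∧ XX W w = 0 := by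
    by_cases h : XX W v = 0
    · exact ⟨v, hv, hv0, h⟩
    · exact ⟨XX W v, hX v hv, h, XX_XX W v⟩
  by_cases h : YY W v1 = 0
  · exact ⟨v1, h1, h10, h1X, h⟩
  · refine ⟨YY W v1, hY v1 h1, h, ?_, YY_YY W v1⟩
    rw [← XX_YY, h1X, map_zero]

/-- Every finite-dimensional module is the direct sum of a projective module and a module of
dimension `cZ`. -/
theorem exists_decomp (W : Rep.{0} F2 G4) [FiniteDimensional F2 W.V] :
    ∃ N P : Rep.{0} F2 G4, Projective P ∧ Nonempty (W ≅ N ⊞ P) ∧
      (Module.finrank F2 N.V : ℤ) = cZ W := by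
  classical
  let U : Submodule F2 W.V := LinearMap.range (nrm W)
  obtain ⟨s, hs⟩ := (nrm W).rangeRestrict.exists_rightInverse_of_surjective
    (LinearMap.range_rangeRestrict _)
  have hs' : ∀ u : U, nrm W (s u) = u.1 := fun u => by
    have := congrArg (fun f => (f u).1) hs
    simpa using this
  obtain ⟨φ, hφ⟩ := U.subtype.exists_leftInverse_of_injective (Submodule.ker_subtype U)
  have hφ' : ∀ u : U, φ u.1 = u := fun u => by
    have := congrArg (fun f => f u) hφ
    simpa using this
  let F : Rep.{0} F2 G4 := Rep.of (Fn F2 G4 U)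
  let i : F ⟶ W := indMap W s
  let π : W ⟶ F := coindMap W φ
  have hconst : ∀ u : U, (i ≫ π).hom (fun _ => u) = fun _ => u := by
    intro u
    have h1 : i.hom (fun _ => u) = u.1 := by
      change (∑ g : G4, W.ρ g (s u)) = u.1
      rw [nrm_eq_sum, hs']
    have h2 : π.hom u.1 = fun _ => u := by
      funext g
      change φ (W.ρ g⁻¹ u.1) = u
      have : W.ρ g⁻¹ u.1 = u.1 := by
        obtain ⟨w, hw⟩ := u.2
        rw [← hw, ← nrm_eq_sum, map_sum, ← Equiv.sum_comp (Equiv.mulLeft g)]
        refine Finset.sum_congr rfl fun h _ => ?_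
        rw [← Module.End.mul_apply, ← map_mul]
        simp
      rw [this, hφ']
    change π.hom (i.hom (fun _ => u)) = _
    rw [h1, h2]
  have hXF : ∀ f : G4 → U, XX F f = (i ≫ π).hom f - (i ≫ π).hom f + XX F f := by
    intro f; simp
  have hinj : Function.Injective (i ≫ π).hom := by
    rw [injective_iff_map_eq_zero]
    intro f hf
    by_contra hf0
    obtain ⟨w, hw, hw0, hwX, hwY⟩ := exists_fixed F
      (LinearMap.ker (i ≫ π).hom.toLinearMap)
      (by
        intro v hv
        rw [LinearMap.mem_ker] at hv ⊢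
        change (i ≫ π).hom v = 0 at hv
        change (i ≫ π).hom (F.ρ ga v + v) = 0
        rw [map_add, Rep.hom_comm_apply, hv, map_zero, add_zero])
      (by
        intro v hv
        rw [LinearMap.mem_ker] at hv ⊢
        change (i ≫ π).hom v = 0 at hv
        change (i ≫ π).hom (F.ρ gb v + v) = 0
        rw [map_add, Rep.hom_comm_apply, hv, map_zero, add_zero])
      f hf hf0
    have hw' : (i ≫ π).hom w = 0 := hw
    -- `w` is constant
    have ha : ∀ g : G4, w (ga⁻¹ * g) = w g := by
      intro g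
      have := congrFun hwX g
      change w (ga⁻¹ * g) + w g = 0 at this
      rwa [add_eq_zero_iff_eq_neg, neg_eq'] at this
    have hb : ∀ g : G4, w (gb⁻¹ * g) = w g := by
      intro g
      have := congrFun hwY g
      change w (gb⁻¹ * g) + w g = 0 at this
      rwa [add_eq_zero_iff_eq_neg, neg_eq'] at this
    have hc : ∀ g : G4, w g = w 1 := by
      intro g
      have h1 : g = 1 ∨ g = ga⁻¹ * 1 ∨ g = gb⁻¹ * 1 ∨ g = ga⁻¹ * (gb⁻¹ * 1) := by
        revert g
        decide
      rcases h1 with rfl | rfl | rfl | rfl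
      · rfl
      · rw [ha]
      · rw [hb]
      · rw [ha, hb]
    have hw1 : w = fun _ => w 1 := funext hc
    have h5 := hconst (w 1)
    rw [← hw1, hw'] at h5
    exact hw0 h5.symm
  have hsurj : Function.Surjective (i ≫ π).hom := by
    have : FiniteDimensional F2 F.V := inferInstanceAs (FiniteDimensional F2 (G4 → U))
    exact (LinearMap.injective_iff_surjective (f := (i ≫ π).hom.toLinearMap)).1 hinj
  have hmono : Mono (i ≫ π) := (Rep.mono_iff_injective _).2 hinj
  have hepi : Epi (i ≫ π) := (Rep.epi_iff_surjective _).2 hsurj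
  have hiso : IsIso (i ≫ π) := isIso_of_mono_of_epi _
  let r : W ⟶ F := π ≫ inv (i ≫ π)
  have hr : i ≫ r = 𝟙 F := by
    simp only [r]
    rw [← Category.assoc]
    exact IsIso.hom_inv_id _
  have hP : Projective F := projective_of_hig F (hig_Fn U)
  refine ⟨kernel r, F, hP, ⟨splitIso i r hr⟩, ?_⟩
  have hker : FiniteDimensional F2 (kernel r).V := by
    have hinj' : Function.Injective (kernel.ι r).hom :=
      (Rep.mono_iff_injective _).1 inferInstance
    exact FiniteDimensional.of_injective (kernel.ι r).hom.toLinearMap hinj'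
  have hFfin : FiniteDimensional F2 F.V := inferInstanceAs (FiniteDimensional F2 (G4 → U))
  have h1 := (isoLin (splitIso i r hr)).finrank_eq
  rw [finrank_biprod] at h1
  have h2 : Module.finrank F2 F.V = 4 * Module.finrank F2 U := by
    change Module.finrank F2 (G4 → U) = _
    rw [Module.finrank_pi_fintype]
    simp
  unfold cZ
  rw [h1, h2]
  push_cast
  ring

end Pool.Agent.TH8
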