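import Mathlib

set_option autoImplicit false

open CategoryTheory CategoryTheory.MonoidalCategory CategoryTheory.Limits

namespace Pool.Agent.TH8

universe u

set_option linter.unusedSectionVars false

variable {k : Type u} [Field k] {G : Type u} [Group G] [Fintype G]

/-- Higman's criterion: the identity is a trace. -/
def Hig (P : Rep.{u} k G) : Prop :=
  ∃ θ : P.V →ₗ[k] P.V, ∀ x : P.V, ∑ g : G, P.ρ g (θ (P.ρ g⁻¹ x)) = x

/-- functions `G → V` with the translation action -/
def Fn (k : Type u) [Field k] (G : Type u) [Group G] (V : Type u) [AddCommGroup V] [Module k V] :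
    Representation k G (G → V) where
  toFun h := { toFun := fun f g => f (h⁻¹ * g)
               map_add' := fun _ _ => rfl
               map_smul' := fun _ _ => rfl }
  map_one' := by
    ext f g
    simp
  map_mul' a b := by
    ext f g
    simp [mul_assoc]

@[simp] lemma Fn_apply {V : Type u} [AddCommGroup V] [Module k V] (h : G) (f : G → V) (g : G) :
    Fn k G V h f g = f (h⁻¹ * g) := rfl

/-- the counit `(G → P) → P` -/
noncomputable def epsMap (P : Rep.{u} k G) : (Rep.of (Fn k G P.V) : Rep.{u} k G) ⟶ P :=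
  Rep.ofHom
    { toFun := fun f => ∑ g : G, P.ρ g (f g)
      map_add' := by
        intro a b
        simp [Finset.sum_add_distrib]
      map_smul' := by
        intro c a
        simp [Finset.smul_sum]
      isIntertwining' := by
        intro h
        ext f
        simp only [LinearMap.coe_comp, LinearMap.coe_mk, AddHom.coe_mk, Function.comp_apply,
          Fn_apply, map_sum]
        rw [← Equiv.sum_comp (Equiv.mulLeft h)]
        simp [map_mul] }

lemma epsMap_apply (P : Rep.{u} k G) (f : G → P.V) :
    (epsMap P).hom f = ∑ g : G, P.ρ g (f g) := rfl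

lemma epsMap_epi (P : Rep.{u} k G) : Epi (epsMap P) := by
  classical
  rw [Rep.epi_iff_surjective]
  intro x
  refine ⟨Pi.single 1 x, ?_⟩
  rw [epsMap_apply]
  rw [Finset.sum_eq_single 1]
  · simp
  · intro b _ hb
    simp [Pi.single_eq_of_ne hb]
  · simp

theorem hig_of_projective (P : Rep.{u} k G) [Projective P] : Hig P := by
  classical
  have := epsMap_epi P
  let s : P ⟶ Rep.of (Fn k G P.V) := Projective.factorThru (𝟙 P) (epsMap P)
  have hs : s ≫ epsMap P = 𝟙 P := Projective.factorThru_comp _ _
  refine ⟨{ toFun := fun x => s.hom x 1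
            map_add' := by intro a b; simp
            map_smul' := by intro c a; simp }, ?_⟩
  intro x
  have h1 : (epsMap P).hom (s.hom x) = x := by
    have := congrArg (fun f => f.hom x) hs
    simpa using this
  rw [epsMap_apply] at h1
  conv_rhs => rw [← h1]
  refine Finset.sum_congr rfl fun g _ => ?_
  congr 1
  have h2 : s.hom (P.ρ g⁻¹ x) = Fn k G P.V g⁻¹ (s.hom x) := Rep.hom_comm_apply s g⁻¹ x
  simp only [LinearMap.coe_mk, AddHom.coe_mk]
  rw [h2]
  simp

theorem projective_of_hig (P : Rep.{u} k G) (h : Hig P) : Projective P := by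
  obtain ⟨θ, hθ⟩ := h
  refine ⟨?_⟩
  intro E X f e he
  rw [Rep.epi_iff_surjective] at he
  have hes : Function.Surjective e.hom.toLinearMap := he
  obtain ⟨t, ht⟩ := e.hom.toLinearMap.exists_rightInverse_of_surjective
    (LinearMap.range_eq_top.2 hes)
  have ht' : ∀ y, e.hom (t y) = y := fun y => by
    have := congrArg (fun f => f y) ht
    simpa using this
  refine ⟨Rep.ofHom
    { toFun := fun x => ∑ g : G, E.ρ g (t (f.hom (θ (P.ρ g⁻¹ x))))
      map_add' := by
        intro a b
        simp [Finset.sum_add_distrib]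
      map_smul' := by
        intro c a
        simp [Finset.smul_sum]
      isIntertwining' := ?_ }, ?_⟩
  · intro h
    ext x
    simp only [LinearMap.coe_comp, LinearMap.coe_mk, AddHom.coe_mk, Function.comp_apply, map_sum]
    rw [← Equiv.sum_comp (Equiv.mulLeft h)]
    refine Finset.sum_congr rfl fun g _ => ?_
    have h1 : P.ρ (h * g)⁻¹ (P.ρ h x) = P.ρ g⁻¹ x := by
      rw [← Module.End.mul_apply, ← map_mul]
      simp
    simp only [Equiv.coe_mulLeft]
    rw [h1, map_mul]
    rfl
  · ext x
    have : (∑ g : G, X.ρ g (f.hom (θ (P.ρ g⁻¹ x)))) = f.hom x := by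
      conv_rhs => rw [← hθ x]
      rw [map_sum]
      refine Finset.sum_congr rfl fun g _ => ?_
      rw [Rep.hom_comm_apply]
    change e.hom (∑ g : G, E.ρ g (t (f.hom (θ (P.ρ g⁻¹ x))))) = f.hom x
    rw [← this, map_sum]
    refine Finset.sum_congr rfl fun g _ => ?_
    rw [Rep.hom_comm_apply, ht']

theorem hig_tensor (P M : Rep.{u} k G) (h : Hig P) : Hig (P ⊗ M) := by
  obtain ⟨θ, hθ⟩ := h
  refine ⟨TensorProduct.map θ LinearMap.id, ?_⟩
  intro x
  induction x using TensorProduct.induction_on with
  | zero => simp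
  | tmul p m =>
    have : ∀ g : G, ((P ⊗ M).ρ g) ((TensorProduct.map θ LinearMap.id)
        (((P ⊗ M).ρ g⁻¹) (p ⊗ₜ[k] m))) = (P.ρ g (θ (P.ρ g⁻¹ p))) ⊗ₜ[k] m := by
      intro g
      simp [Rep.tensor_ρ, Representation.tprod_apply]
    rw [Finset.sum_congr rfl fun g _ => this g, ← TensorProduct.sum_tmul, hθ]
  | add a b ha hb =>
    simp only [map_add, Finset.sum_add_distrib]
    rw [ha, hb]

theorem projective_tensor (P M : Rep.{u} k G) [Projective P] : Projective (P ⊗ M) :=
  projective_of_hig _ (hig_tensor _ _ (hig_of_projective P))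

theorem hig_Fn (V : Type u) [AddCommGroup V] [Module k V] : Hig (Rep.of (Fn k G V) : Rep.{u} k G) := by
  classical
  refine ⟨{ toFun := fun f => Pi.single 1 (f 1)
            map_add' := by intro a b; simp [Pi.single_add]
            map_smul' := by intro c a; simp [Pi.single_smul] }, ?_⟩
  intro f
  ext h
  change (∑ g : G, (Fn k G V g) ((Pi.single 1 ((Fn k G V g⁻¹ f) 1) : G → V))) h = f h
  rw [Finset.sum_apply, Finset.sum_eq_single h]
  · simp
  · intro b _ hb
    rw [Fn_apply]
    have : b⁻¹ * h ≠ 1 := by
      intro h'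
      apply hb
      rw [inv_mul_eq_one] at h'
      exact h'
    rw [Pi.single_eq_of_ne this]
  · simp

end Pool.Agent.TH8
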