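import Pool.Agent.TH8.CoreDim

set_option autoImplicit false
set_option linter.unusedSectionVars false

open CategoryTheory CategoryTheory.MonoidalCategory CategoryTheory.Limits

namespace Pool.Agent.TH8

lemma smul_sq {V : Type} [AddCommGroup V] [Module F2 V] (x : V →ₗ[F2] V)
    (hx : ∀ v, x (x v) = 0) (i j : F2) :
    (1 + i • x) * (1 + j • x) = (1 + (i + j) • x : V →ₗ[F2] V) := by
  ext v
  simp [Module.End.mul_apply, hx, add_smul]
  abel

/-- the representation of the Klein four group with `g - 1 = x` and `h - 1 = y` -/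
def ofXY (V : Type) [AddCommGroup V] [Module F2 V] (x y : V →ₗ[F2] V)
    (hx : ∀ v, x (x v) = 0) (hy : ∀ v, y (y v) = 0) (hxy : ∀ v, x (y v) = y (x v)) :
    Representation F2 G4 V where
  toFun g := (1 + (Multiplicative.toAdd g.1 : F2) • x) * (1 + (Multiplicative.toAdd g.2 : F2) • y)
  map_one' := by
    ext v
    simp
  map_mul' g h := by
    have hc : (1 + (Multiplicative.toAdd g.2 : F2) • y) * (1 + (Multiplicative.toAdd h.1 : F2) • x)
        = (1 + (Multiplicative.toAdd h.1 : F2) • x) *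
          (1 + (Multiplicative.toAdd g.2 : F2) • y) := by
      ext v
      simp [Module.End.mul_apply, hxy, smul_smul, mul_comm]
      abel
    calc (1 + (Multiplicative.toAdd (g * h).1 : F2) • x) *
          (1 + (Multiplicative.toAdd (g * h).2 : F2) • y)
        = ((1 + (Multiplicative.toAdd g.1 : F2) • x) * (1 + (Multiplicative.toAdd h.1 : F2) • x)) *
          ((1 + (Multiplicative.toAdd g.2 : F2) • y) *
            (1 + (Multiplicative.toAdd h.2 : F2) • y)) := by
          rw [smul_sq x hx, smul_sq y hy]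
          rfl
      _ = (1 + (Multiplicative.toAdd g.1 : F2) • x) *
          ((1 + (Multiplicative.toAdd h.1 : F2) • x) *
          (1 + (Multiplicative.toAdd g.2 : F2) • y)) *
            (1 + (Multiplicative.toAdd h.2 : F2) • y) := by
          simp only [mul_assoc]
      _ = _ := by
          rw [← hc]
          simp only [mul_assoc]

section

variable {V : Type} [AddCommGroup V] [Module F2 V] (x y : V →ₗ[F2] V)
    (hx : ∀ v, x (x v) = 0) (hy : ∀ v, y (y v) = 0) (hxy : ∀ v, x (y v) = y (x v))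

lemma XX_ofXY (v : V) : XX (Rep.of (ofXY V x y hx hy hxy)) v = x v := by
  change ((1 + (1 : F2) • x) * (1 + (0 : F2) • y)) v + v = x v
  simp
  rw [add_comm v, add_assoc, two_eq, add_zero]

lemma YY_ofXY (v : V) : YY (Rep.of (ofXY V x y hx hy hxy)) v = y v := by
  change ((1 + (0 : F2) • x) * (1 + (1 : F2) • y)) v + v = y v
  simp
  rw [add_comm v, add_assoc, two_eq, add_zero]

end

lemma G4_cases (g : G4) : g = 1 ∨ g = ga ∨ g = gb ∨ g = ga * gb := by
  revert g
  decide

/-- equivariance can be checked on `x` and `y` -/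
noncomputable def homXY (A B : Rep.{0} F2 G4) (f : A.V →ₗ[F2] B.V)
    (hX : ∀ v, f (XX A v) = XX B (f v)) (hY : ∀ v, f (YY A v) = YY B (f v)) : A ⟶ B :=
  Rep.ofHom
    { f with
      isIntertwining' := by
        have ha : ∀ v, f (A.ρ ga v) = B.ρ ga (f v) := by
          intro v
          have := hX v
          rw [XX_apply, XX_apply, map_add] at this
          exact add_right_cancel this
        have hb : ∀ v, f (A.ρ gb v) = B.ρ gb (f v) := by
          intro v
          have := hY v
          rw [YY_apply, YY_apply, map_add] at this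
          exact add_right_cancel this
        intro g
        rcases G4_cases g with rfl | rfl | rfl | rfl
        · ext v; simp
        · ext v; exact ha v
        · ext v; exact hb v
        · ext v
          rw [map_mul, map_mul]
          change f (A.ρ ga (A.ρ gb v)) = B.ρ ga (B.ρ gb (f v))
          rw [ha, hb] }

lemma homXY_apply (A B : Rep.{0} F2 G4) (f : A.V →ₗ[F2] B.V)
    (hX : ∀ v, f (XX A v) = XX B (f v)) (hY : ∀ v, f (YY A v) = YY B (f v)) (v : A.V) :
    (homXY A B f hX hY).hom v = f v := rfl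

/-- The module `T ⊕ S` with `x (t, s) = (0, X t)` and `y (t, s) = (0, Y t)`. -/
def kron {T S : Type} [AddCommGroup T] [Module F2 T] [AddCommGroup S] [Module F2 S]
    (X Y : T →ₗ[F2] S) : Rep.{0} F2 G4 :=
  Rep.of (ofXY (T × S) (LinearMap.inr F2 T S ∘ₗ X ∘ₗ LinearMap.fst F2 T S)
    (LinearMap.inr F2 T S ∘ₗ Y ∘ₗ LinearMap.fst F2 T S) (by intro v; simp) (by intro v; simp)
    (by intro v; simp))

section kron

variable {T S : Type} [AddCommGroup T] [Module F2 T] [AddCommGroup S] [Module F2 S]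
    (X Y : T →ₗ[F2] S)

lemma XX_kron (t : T) (s : S) : XX (kron X Y) ((t, s) : T × S) = ((0, X t) : T × S) := by
  change XX (Rep.of (ofXY _ _ _ _ _ _)) _ = _
  rw [XX_ofXY]
  rfl

lemma YY_kron (t : T) (s : S) : YY (kron X Y) ((t, s) : T × S) = ((0, Y t) : T × S) := by
  change YY (Rep.of (ofXY _ _ _ _ _ _)) _ = _
  rw [YY_ofXY]
  rfl

lemma nrm_kron : nrm (kron X Y) = 0 := by
  refine LinearMap.ext fun v => ?_
  change XX (kron X Y) (YY (kron X Y) ((v.1, v.2) : T × S)) = 0
  rw [YY_kron, XX_kron, map_zero]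
  rfl

lemma cZ_kron [FiniteDimensional F2 T] [FiniteDimensional F2 S] :
    cZ (kron X Y) = Module.finrank F2 T + Module.finrank F2 S := by
  unfold cZ
  rw [nrm_kron, LinearMap.range_zero, finrank_bot]
  have : Module.finrank F2 (kron X Y).V = Module.finrank F2 T + Module.finrank F2 S :=
    Module.finrank_prod
  rw [this]
  push_cast
  ring

end kron

section proj

variable (T : Type) [AddCommGroup T] [Module F2 T]

/-- `x (a, b, c, d) = (0, a, 0, c)` -/
def pX : (T × T × T × T) →ₗ[F2] (T × T × T × T) where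
  toFun v := (0, v.1, 0, v.2.2.1)
  map_add' u v := by simp
  map_smul' c v := by simp

/-- `y (a, b, c, d) = (0, 0, a, b)` -/
def pY : (T × T × T × T) →ₗ[F2] (T × T × T × T) where
  toFun v := (0, 0, v.1, v.2.1)
  map_add' u v := by simp
  map_smul' c v := by simp

lemma pX_pX (v : T × T × T × T) : pX T (pX T v) = 0 := rfl
lemma pY_pY (v : T × T × T × T) : pY T (pY T v) = 0 := rfl
lemma pX_pY (v : T × T × T × T) : pX T (pY T v) = pY T (pX T v) := rfl

/-- the free module `T ⊗ kG`, elements `a + b x + c y + d xy` -/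
def rP : Representation F2 G4 (T × T × T × T) :=
  ofXY (T × T × T × T) (pX T) (pY T) (pX_pX T) (pY_pY T) (pX_pY T)

/-- the free module `T ⊗ kG` as an object -/
def PT : Rep.{0} F2 G4 := Rep.of (rP T)

lemma XX_PT (v : T × T × T × T) : XX (PT T) v = ((0, v.1, 0, v.2.2.1) : T × T × T × T) :=
  XX_ofXY (pX T) (pY T) (pX_pX T) (pY_pY T) (pX_pY T) v

lemma YY_PT (v : T × T × T × T) : YY (PT T) v = ((0, 0, v.1, v.2.1) : T × T × T × T) :=
  YY_ofXY (pX T) (pY T) (pX_pX T) (pY_pY T) (pX_pY T) v

lemma rP_ga (w : T × T × T × T) : rP T ga w = (w.1, w.1 + w.2.1, w.2.2.1, w.2.2.1 + w.2.2.2) := by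
  have h1 : rP T ga w + w = (0, w.1, 0, w.2.2.1) := XX_PT T w
  rw [eq_sub_of_add_eq h1, sub_eq_add_neg, neg_eq']
  ext <;> simp

lemma rP_gb (w : T × T × T × T) : rP T gb w = (w.1, w.2.1, w.1 + w.2.2.1, w.2.1 + w.2.2.2) := by
  have h1 : rP T gb w + w = (0, 0, w.1, w.2.1) := YY_PT T w
  rw [eq_sub_of_add_eq h1, sub_eq_add_neg, neg_eq']
  ext <;> simp

/-- the coefficient of the neutral element -/
def thP : (T × T × T × T) →ₗ[F2] (T × T × T × T) where
  toFun v := (v.1 + v.2.1 + v.2.2.1 + v.2.2.2, 0, 0, 0)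
  map_add' := by
    intro u v
    ext <;> simp
    abel
  map_smul' := by
    intro c v
    ext <;> simp

lemma thP_apply (v : T × T × T × T) : thP T v = (v.1 + v.2.1 + v.2.2.1 + v.2.2.2, 0, 0, 0) := rfl

lemma trace_thP (v : T × T × T × T) : ∑ g : G4, rP T g (thP T (rP T g⁻¹ v)) = v := by
  rw [sum_G4]
  have e1 : ((1, 1) : G4) = 1 := rfl
  have e2 : ((1, Multiplicative.ofAdd 1) : G4) = gb := rfl
  have e3 : ((Multiplicative.ofAdd 1, 1) : G4) = ga := rfl
  have i1 : (1 : G4)⁻¹ = 1 := by decide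
  have i2 : gb⁻¹ = gb := by decide
  have i3 : ga⁻¹ = ga := by decide
  have i4 : (ga * gb)⁻¹ = ga * gb := by decide
  rw [e1, e2, e3, ← ga_gb, i1, i2, i3, i4]
  have hAB : ∀ w, rP T (ga * gb) w = rP T ga (rP T gb w) := by
    intro w
    rw [map_mul]
    rfl
  rw [hAB, hAB, map_one]
  obtain ⟨a, b, c, d⟩ := v
  have t : ∀ z : T, z + z = 0 := two_eq
  simp only [rP_ga, rP_gb, thP_apply, Module.End.one_apply]
  have t3 : ∀ z w : T, z + (z + w) = w := fun z w => by rw [← add_assoc, t, zero_add]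
  ext
  · simp only [Prod.fst_add]
    linear_combination (norm := module) (4 : ℤ) • t a + (3 : ℤ) • t b + (3 : ℤ) • t c + (2 : ℤ) • t d
  · simp only [Prod.fst_add, Prod.snd_add, add_zero]
    linear_combination (norm := module) (3 : ℤ) • t a + (1 : ℤ) • t b + (2 : ℤ) • t c + (1 : ℤ) • t d
  · simp only [Prod.fst_add, Prod.snd_add, add_zero]
    linear_combination (norm := module) (3 : ℤ) • t a + (2 : ℤ) • t b + (1 : ℤ) • t c + (1 : ℤ) • t d
  · simp only [Prod.snd_add, add_zero]
    linear_combination (norm := module) (2 : ℤ) • t a + (1 : ℤ) • t b + (1 : ℤ) • t c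

lemma hig_PT : Hig (PT T) := ⟨thP T, trace_thP T⟩

end proj

end Pool.Agent.TH8
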