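import Pool.Agent.TH8.Modules

set_option autoImplicit false
set_option linter.unusedSectionVars false

open CategoryTheory CategoryTheory.MonoidalCategory CategoryTheory.Limits

namespace Pool.Agent.TH8

section maps

variable {T S K R : Type} [AddCommGroup T] [Module F2 T] [AddCommGroup S] [Module F2 S]
  [AddCommGroup K] [Module F2 K]

/-- the inclusion of the kernel, as a linear map -/
def iotaLin (X Y : K →ₗ[F2] T) : (K × T) →ₗ[F2] (T × T × T × T) where
  toFun v := (0, Y v.1, X v.1, v.2)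
  map_add' u v := by simp
  map_smul' c v := by simp

/-- the inclusion of the kernel -/
noncomputable def iotaK (X Y : K →ₗ[F2] T) : kron X Y ⟶ PT T :=
  homXY (kron X Y) (PT T) (iotaLin X Y)
    (fun v => (congrArg (iotaLin X Y) (XX_kron X Y v.1 v.2)).trans
      (Eq.trans (by simp [iotaLin] :
        iotaLin X Y ((0, X v.1) : K × T) = ((0, 0, 0, X v.1) : T × T × T × T))
        (XX_PT T (iotaLin X Y v)).symm))
    (fun v => (congrArg (iotaLin X Y) (YY_kron X Y v.1 v.2)).trans
      (Eq.trans (by simp [iotaLin] :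
        iotaLin X Y ((0, Y v.1) : K × T) = ((0, 0, 0, Y v.1) : T × T × T × T))
        (YY_PT T (iotaLin X Y v)).symm))

lemma iotaK_apply (X Y : K →ₗ[F2] T) (v : K × T) :
    (iotaK X Y).hom v = ((0, Y v.1, X v.1, v.2) : T × T × T × T) := rfl

/-- the projective cover, as a linear map -/
def piLin (X Y : T →ₗ[F2] S) : (T × T × T × T) →ₗ[F2] (T × S) where
  toFun v := (v.1, X v.2.1 + Y v.2.2.1)
  map_add' u v := by
    ext1
    · simp
    · simp only [Prod.fst_add, Prod.snd_add, map_add]
      abel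
  map_smul' c v := by simp

/-- the projective cover -/
noncomputable def piK (X Y : T →ₗ[F2] S) : PT T ⟶ kron X Y :=
  homXY (PT T) (kron X Y) (piLin X Y)
    (fun v => (congrArg (piLin X Y) (XX_PT T v)).trans
      (Eq.trans (by simp [piLin] :
        piLin X Y ((0, v.1, 0, v.2.2.1) : T × T × T × T) = ((0, X v.1) : T × S))
        (XX_kron X Y _ _).symm))
    (fun v => (congrArg (piLin X Y) (YY_PT T v)).trans
      (Eq.trans (by simp [piLin] :
        piLin X Y ((0, 0, v.1, v.2.1) : T × T × T × T) = ((0, Y v.1) : T × S))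
        (YY_kron X Y _ _).symm))

lemma piK_apply (X Y : T →ₗ[F2] S) (v : T × T × T × T) :
    (piK X Y).hom v = ((v.1, X v.2.1 + Y v.2.2.1) : T × S) := rfl

end maps

/-- `f ↦ f ∘ succ` -/
def sA (n : ℕ) : (Fin (n + 1) → F2) →ₗ[F2] (Fin n → F2) := LinearMap.funLeft F2 F2 Fin.succ
/-- `f ↦ f ∘ castSucc` -/
def cA (n : ℕ) : (Fin (n + 1) → F2) →ₗ[F2] (Fin n → F2) := LinearMap.funLeft F2 F2 Fin.castSucc

lemma sA_apply (n : ℕ) (f : Fin (n + 1) → F2) (i : Fin n) : sA n f i = f i.succ := rfl
lemma cA_apply (n : ℕ) (f : Fin (n + 1) → F2) (i : Fin n) : cA n f i = f i.castSucc := rfl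

/-- `h ↦ (0, h)` -/
def sB (n : ℕ) : (Fin n → F2) →ₗ[F2] (Fin (n + 1) → F2) where
  toFun h := Fin.cons 0 h
  map_add' a b := by
    ext i
    refine Fin.cases ?_ (fun j => ?_) i <;> simp
  map_smul' c a := by
    ext i
    refine Fin.cases ?_ (fun j => ?_) i <;> simp

/-- `h ↦ (h, 0)` -/
def cB (n : ℕ) : (Fin n → F2) →ₗ[F2] (Fin (n + 1) → F2) where
  toFun h := Fin.snoc h 0
  map_add' a b := by
    ext i
    refine Fin.lastCases ?_ (fun j => ?_) i <;> simp
  map_smul' c a := by
    ext i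
    refine Fin.lastCases ?_ (fun j => ?_) i <;> simp

lemma sB_zero (n : ℕ) (h : Fin n → F2) : sB n h 0 = 0 := rfl
lemma sB_succ (n : ℕ) (h : Fin n → F2) (i : Fin n) : sB n h i.succ = h i := by simp [sB]
lemma cB_last (n : ℕ) (h : Fin n → F2) : cB n h (Fin.last n) = 0 := by simp [cB]
lemma cB_castSucc (n : ℕ) (h : Fin n → F2) (i : Fin n) : cB n h i.castSucc = h i := by simp [cB]

/-- `Ω^n(k)` -/
noncomputable def Am (n : ℕ) : Rep.{0} F2 G4 := kron (sA n) (cA n)
/-- `Ω^{-n}(k)` -/
noncomputable def Bm (n : ℕ) : Rep.{0} F2 G4 := kron (sB n) (cB n)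

/-- A short exact sequence `0 → K → PT T → W → 0`, elementwise. -/
structure Ses (K W : Rep.{0} F2 G4) (T : Type) [AddCommGroup T] [Module F2 T] where
  i : K ⟶ PT T
  p : PT T ⟶ W
  inj : Function.Injective i.hom
  surj : Function.Surjective p.hom
  zero : ∀ x, p.hom (i.hom x) = 0
  ex : ∀ y, p.hom y = 0 → ∃ x, i.hom x = y

noncomputable def sesA (n : ℕ) : Ses (Am (n + 1)) (Am n) (Fin (n + 1) → F2) where
  i := iotaK (sA (n + 1)) (cA (n + 1))
  p := piK (sA n) (cA n)
  inj := by
    intro u v huv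
    change ((0, cA (n + 1) u.1, sA (n + 1) u.1, u.2) :
      (Fin (n + 1) → F2) × (Fin (n + 1) → F2) × (Fin (n + 1) → F2) × (Fin (n + 1) → F2)) =
      (0, cA (n + 1) v.1, sA (n + 1) v.1, v.2) at huv
    simp only [Prod.mk.injEq, true_and] at huv
    obtain ⟨h1, h2, h3⟩ := huv
    refine Prod.ext ?_ h3
    funext i
    refine Fin.cases ?_ (fun j => ?_) i
    · exact congrFun h1 0
    · exact congrFun h2 j
  surj := by
    rintro ⟨a, s⟩
    refine ⟨((a, Fin.cons 0 s, 0, 0) :
      (Fin (n + 1) → F2) × (Fin (n + 1) → F2) × (Fin (n + 1) → F2) × (Fin (n + 1) → F2)), ?_⟩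
    refine (piK_apply _ _ _).trans ?_
    refine Prod.ext rfl ?_
    funext i
    simp [sA, LinearMap.funLeft]
  zero := by
    intro v
    change ((0, sA n (cA (n + 1) v.1) + cA n (sA (n + 1) v.1)) :
      (Fin (n + 1) → F2) × (Fin n → F2)) = 0
    refine Prod.ext rfl ?_
    funext i
    change v.1 i.succ.castSucc + v.1 i.castSucc.succ = 0
    rw [Fin.succ_castSucc]
    exact two_eq _
  ex := by
    rintro ⟨a, b, c, d⟩ h
    change ((a, sA n b + cA n c) : (Fin (n + 1) → F2) × (Fin n → F2)) = 0 at h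
    rw [Prod.mk_eq_zero] at h
    obtain ⟨rfl, h⟩ := h
    refine ⟨((Fin.cons (b 0) c, d) : (Fin (n + 2) → F2) × (Fin (n + 1) → F2)), ?_⟩
    change ((0, cA (n + 1) (Fin.cons (b 0) c), sA (n + 1) (Fin.cons (b 0) c), d) :
      (Fin (n + 1) → F2) × (Fin (n + 1) → F2) × (Fin (n + 1) → F2) × (Fin (n + 1) → F2)) =
      (0, b, c, d)
    have h1 : cA (n + 1) (Fin.cons (b 0) c) = b := by
      funext i
      rw [cA_apply]
      refine Fin.cases ?_ (fun j => ?_) i
      · rfl
      · have h2 := congrFun h j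
        change b j.succ + c j.castSucc = 0 at h2
        rw [add_eq_zero_iff_eq_neg, neg_eq'] at h2
        rw [h2, ← Fin.succ_castSucc, Fin.cons_succ]
    have h3 : sA (n + 1) (Fin.cons (b 0) c) = c := by
      funext i
      rw [sA_apply, Fin.cons_succ]
    rw [h1, h3]

noncomputable def sesB (n : ℕ) : Ses (Bm n) (Bm (n + 1)) (Fin (n + 1) → F2) where
  i := iotaK (sB n) (cB n)
  p := piK (sB (n + 1)) (cB (n + 1))
  inj := by
    intro u v huv
    change ((0, cB n u.1, sB n u.1, u.2) :
      (Fin (n + 1) → F2) × (Fin (n + 1) → F2) × (Fin (n + 1) → F2) × (Fin (n + 1) → F2)) =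
      (0, cB n v.1, sB n v.1, v.2) at huv
    simp only [Prod.mk.injEq, true_and] at huv
    obtain ⟨h1, h2, h3⟩ := huv
    refine Prod.ext ?_ h3
    funext i
    have := congrFun h2 i.succ
    rwa [sB_succ, sB_succ] at this
  surj := by
    rintro ⟨a, s⟩
    refine ⟨((a, fun i => s i.succ, fun i => if i = 0 then s 0 else 0, 0) :
      (Fin (n + 1) → F2) × (Fin (n + 1) → F2) × (Fin (n + 1) → F2) × (Fin (n + 1) → F2)), ?_⟩
    refine (piK_apply _ _ _).trans ?_
    refine Prod.ext rfl ?_
    funext i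
    change sB (n + 1) (fun i => s i.succ) i + cB (n + 1) (fun i => if i = 0 then s 0 else 0) i = s i
    refine Fin.cases ?_ (fun j => ?_) i
    · rw [sB_zero, zero_add]
      have := cB_castSucc (n + 1) (fun i => if i = 0 then s 0 else 0) 0
      simpa using this
    · rw [sB_succ]
      have : cB (n + 1) (fun i => if i = 0 then s 0 else 0) j.succ = 0 := by
        refine Fin.lastCases ?_ (fun l => ?_) j
        · rw [Fin.succ_last]
          exact cB_last _ _
        · rw [Fin.succ_castSucc, cB_castSucc]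
          simp [Fin.succ_ne_zero]
      rw [this, add_zero]
  zero := by
    intro v
    change ((0, sB (n + 1) (cB n v.1) + cB (n + 1) (sB n v.1)) :
      (Fin (n + 1) → F2) × (Fin (n + 2) → F2)) = 0
    refine Prod.ext rfl ?_
    funext i
    change sB (n + 1) (cB n v.1) i + cB (n + 1) (sB n v.1) i = 0
    refine Fin.cases ?_ (fun j => ?_) i
    · rw [sB_zero, zero_add]
      have := cB_castSucc (n + 1) (sB n v.1) 0
      rw [sB_zero] at this
      simpa using this
    · rw [sB_succ]
      refine Fin.lastCases ?_ (fun l => ?_) j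
      · rw [Fin.succ_last, cB_last, cB_last, add_zero]
      · rw [Fin.succ_castSucc, cB_castSucc, cB_castSucc, sB_succ]
        exact two_eq _
  ex := by
    rintro ⟨a, b, c, d⟩ h
    change ((a, sB (n + 1) b + cB (n + 1) c) : (Fin (n + 1) → F2) × (Fin (n + 2) → F2)) = 0 at h
    rw [Prod.mk_eq_zero] at h
    obtain ⟨rfl, h⟩ := h
    have hc0 : c 0 = 0 := by
      have h1 := congrFun h 0
      change sB (n + 1) b 0 + cB (n + 1) c 0 = 0 at h1
      rw [sB_zero, zero_add] at h1
      have h2 := cB_castSucc (n + 1) c 0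
      rw [Fin.castSucc_zero] at h2
      rw [← h2, h1]
    refine ⟨((fun i => c i.succ, d) : (Fin n → F2) × (Fin (n + 1) → F2)), ?_⟩
    change ((0, cB n (fun i => c i.succ), sB n (fun i => c i.succ), d) :
      (Fin (n + 1) → F2) × (Fin (n + 1) → F2) × (Fin (n + 1) → F2) × (Fin (n + 1) → F2)) =
      (0, b, c, d)
    have h3 : sB n (fun i => c i.succ) = c := by
      funext i
      refine Fin.cases ?_ (fun j => ?_) i
      · rw [sB_zero, hc0]
      · rw [sB_succ]
    have h1 : cB n (fun i => c i.succ) = b := by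
      funext i
      have h4 := congrFun h i.succ
      change sB (n + 1) b i.succ + cB (n + 1) c i.succ = 0 at h4
      rw [sB_succ, add_eq_zero_iff_eq_neg, neg_eq'] at h4
      rw [h4]
      refine Fin.lastCases ?_ (fun l => ?_) i
      · rw [Fin.succ_last, cB_last, cB_last]
      · rw [Fin.succ_castSucc, cB_castSucc, cB_castSucc]
    rw [h1, h3]

end Pool.Agent.TH8
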