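import Pool.Agent.TH8.Seq

set_option autoImplicit false
set_option linter.unusedSectionVars false

open CategoryTheory CategoryTheory.MonoidalCategory CategoryTheory.Limits

namespace Pool.Agent.TH8

lemma lift_of_exact {K P Z : Rep.{0} F2 G4} (i : K ⟶ P) (hi : Function.Injective i.hom)
    (f : Z ⟶ P) (h : ∀ z, ∃ x, i.hom x = f.hom z) : ∃ l : Z ⟶ K, l ≫ i = f := by
  choose l hl using h
  refine ⟨Rep.ofHom
    { toFun := l
      map_add' := by
        intro a b
        apply hi
        rw [map_add, hl, hl, hl, map_add]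
      map_smul' := by
        intro c a
        apply hi
        rw [RingHom.id_apply, map_smul, hl, hl, map_smul]
      isIntertwining' := by
        intro g
        ext z
        apply hi
        simp only [LinearMap.coe_comp, LinearMap.coe_mk, AddHom.coe_mk, Function.comp_apply]
        rw [hl, Rep.hom_comm_apply, Rep.hom_comm_apply, hl] }, ?_⟩
  ext z
  exact hl z

/-- `Am 0` is the trivial module -/
noncomputable def Am0Iso : Am 0 ≅ 𝟙_ (Rep.{0} F2 G4) where
  hom := homXY (Am 0) (𝟙_ (Rep.{0} F2 G4))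
    (LinearMap.proj 0 ∘ₗ LinearMap.fst F2 (Fin 1 → F2) (Fin 0 → F2))
    (by
      intro v
      refine (congrArg (LinearMap.proj 0 ∘ₗ LinearMap.fst F2 (Fin 1 → F2) (Fin 0 → F2))
        (XX_kron (sA 0) (cA 0) v.1 v.2)).trans ?_
      change (0 : F2) = _ + _
      exact (two_eq _).symm)
    (by
      intro v
      refine (congrArg (LinearMap.proj 0 ∘ₗ LinearMap.fst F2 (Fin 1 → F2) (Fin 0 → F2))
        (YY_kron (sA 0) (cA 0) v.1 v.2)).trans ?_
      change (0 : F2) = _ + _
      exact (two_eq _).symm)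
  inv := homXY (𝟙_ (Rep.{0} F2 G4)) (Am 0)
    (LinearMap.inl F2 (Fin 1 → F2) (Fin 0 → F2) ∘ₗ LinearMap.pi (fun _ => LinearMap.id))
    (by
      intro v
      refine Eq.trans ?_ (XX_kron (sA 0) (cA 0) (fun _ => v) 0).symm
      have : XX (𝟙_ (Rep.{0} F2 G4)) v = 0 := two_eq _
      rw [this, map_zero]
      refine Prod.ext rfl ?_
      exact Subsingleton.elim _ _)
    (by
      intro v
      refine Eq.trans ?_ (YY_kron (sA 0) (cA 0) (fun _ => v) 0).symm
      have : YY (𝟙_ (Rep.{0} F2 G4)) v = 0 := two_eq _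
      rw [this, map_zero]
      refine Prod.ext rfl ?_
      exact Subsingleton.elim _ _)
  hom_inv_id := by
    ext v
    change ((fun _ : Fin 1 => v.1 0, 0) : (Fin 1 → F2) × (Fin 0 → F2)) = v
    refine Prod.ext ?_ (Subsingleton.elim _ _)
    funext i
    rw [Subsingleton.elim i 0]
  inv_hom_id := by
    ext
    rfl

theorem step {K W : Rep.{0} F2 G4} {T : Type} [AddCommGroup T] [Module F2 T]
    [FiniteDimensional F2 T] [FiniteDimensional F2 W.V] (s : Ses K W T) :
    ∃ P₁ P₂ : Rep.{0} F2 G4, Projective P₁ ∧ Projective P₂ ∧ FiniteDimensional F2 P₁.V ∧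
      FiniteDimensional F2 P₂.V ∧ Nonempty ((W ⊗ Am 1) ⊞ P₁ ≅ K ⊞ P₂) := by
  let s0 : Ses (Am 1) (Am 0) (Fin 1 → F2) := sesA 0
  have hPT : ∀ (T' : Type) [AddCommGroup T'] [Module F2 T'], Projective (PT T') := fun T' _ _ =>
    projective_of_hig _ (hig_PT T')
  have h1 : Projective (PT T) := hPT T
  have h2 : Projective (W ⊗ PT (Fin 1 → F2)) := by
    have : Projective (PT (Fin 1 → F2)) := hPT _
    have h3 : Projective (PT (Fin 1 → F2) ⊗ W) := projective_tensor _ _
    exact Projective.of_iso (β_ (PT (Fin 1 → F2)) W) h3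
  refine ⟨PT T, W ⊗ PT (Fin 1 → F2), h1, h2, inferInstanceAs (FiniteDimensional F2 (T × T × T × T)),
    ?_, ?_⟩
  · have : FiniteDimensional F2 (PT (Fin 1 → F2)).V := inferInstanceAs (FiniteDimensional F2
      ((Fin 1 → F2) × (Fin 1 → F2) × (Fin 1 → F2) × (Fin 1 → F2)))
    exact inferInstanceAs (FiniteDimensional F2 (TensorProduct F2 W.V (PT (Fin 1 → F2)).V))
  · let e : W ⊗ Am 0 ≅ W := (whiskerLeftIso W Am0Iso) ≪≫ ρ_ W
    let i₁ : W ⊗ Am 1 ⟶ W ⊗ PT (Fin 1 → F2) := W ◁ s0.i
    let p₁' : W ⊗ PT (Fin 1 → F2) ⟶ W ⊗ Am 0 := W ◁ s0.p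
    let p₁ : W ⊗ PT (Fin 1 → F2) ⟶ W := p₁' ≫ e.hom
    have hi₁ : Function.Injective i₁.hom :=
      Module.Flat.lTensor_preserves_injective_linearMap s0.i.hom.toLinearMap s0.inj
    have hp₁' : Function.Surjective p₁'.hom :=
      LinearMap.lTensor_surjective W.V s0.surj
    have hex0 : Function.Exact s0.i.hom.toLinearMap s0.p.hom.toLinearMap := by
      intro y
      constructor
      · intro hy
        obtain ⟨x, hx⟩ := s0.ex y hy
        exact ⟨x, hx⟩
      · rintro ⟨x, rfl⟩
        exact s0.zero x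
    have hex : Function.Exact i₁.hom.toLinearMap p₁'.hom.toLinearMap :=
      lTensor_exact W.V hex0 s0.surj
    have w0 : i₁ ≫ p₁' = 0 := by
      ext x
      exact (hex _).2 ⟨x, rfl⟩
    have w₁ : i₁ ≫ p₁ = 0 := by
      simp only [p₁]
      rw [← Category.assoc, w0, zero_comp]
    have m₁ : Mono i₁ := (Rep.mono_iff_injective _).2 hi₁
    have e₁' : Epi p₁' := (Rep.epi_iff_surjective _).2 hp₁'
    have e₁ : Epi p₁ := epi_comp _ _
    have m₂ : Mono s.i := (Rep.mono_iff_injective _).2 s.inj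
    have e₂ : Epi s.p := (Rep.epi_iff_surjective _).2 s.surj
    have w₂ : s.i ≫ s.p = 0 := by
      ext x
      exact s.zero x
    refine schanuel i₁ p₁ w₁ ?_ s.i s.p w₂ ?_
    · intro Z f hf
      apply lift_of_exact i₁ hi₁
      intro z
      have hf' : f ≫ p₁' = 0 := by
        rw [← cancel_mono e.hom, Category.assoc, zero_comp]
        exact hf
      have : p₁'.hom (f.hom z) = 0 := by
        have := congrArg (fun g => g.hom z) hf'
        exact this
      exact (hex _).1 this
    · intro Z f hf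
      apply lift_of_exact s.i s.inj
      intro z
      apply s.ex
      have := congrArg (fun g => g.hom z) hf
      exact this

end Pool.Agent.TH8
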