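import Pool.Agent.TH8.Hig

set_option autoImplicit false
set_option linter.unusedSectionVars false

open CategoryTheory CategoryTheory.MonoidalCategory CategoryTheory.Limits

namespace Pool.Agent.TH8

/-- the field with two elements -/
abbrev F2 : Type := ZMod 2

/-- the Klein four group -/
abbrev G4 : Type := Multiplicative (ZMod 2) × Multiplicative (ZMod 2)

instance : Fact (Nat.Prime 2) := ⟨Nat.prime_two⟩

lemma sum_G4 {V : Type} [AddCommMonoid V] (f : G4 → V) :
    ∑ g : G4, f g = f (1, 1) + f (1, Multiplicative.ofAdd 1) + f (Multiplicative.ofAdd 1, 1) +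
      f (Multiplicative.ofAdd 1, Multiplicative.ofAdd 1) := by
  rw [Fintype.sum_prod_type]
  have h : ∀ g : Multiplicative (ZMod 2) → V, ∑ x, g x = g 1 + g (Multiplicative.ofAdd 1) := by
    intro g
    exact Fin.sum_univ_two (f := fun i : Fin 2 => g (Multiplicative.ofAdd (i : ZMod 2)))
  rw [h, h, h]
  abel

/-- generators -/
def ga : G4 := (Multiplicative.ofAdd 1, 1)
def gb : G4 := (1, Multiplicative.ofAdd 1)

lemma ga_sq : ga * ga = 1 := by decide
lemma gb_sq : gb * gb = 1 := by decide
lemma ga_gb : ga * gb = (Multiplicative.ofAdd 1, Multiplicative.ofAdd 1) := by decide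
lemma gb_ga : gb * ga = ga * gb := by decide

/-- `x = g - 1` as an operator -/
noncomputable def XX (W : Rep.{0} F2 G4) : W.V →ₗ[F2] W.V := W.ρ ga + LinearMap.id
noncomputable def YY (W : Rep.{0} F2 G4) : W.V →ₗ[F2] W.V := W.ρ gb + LinearMap.id

lemma two_eq {V : Type} [AddCommGroup V] [Module F2 V] (v : V) : v + v = 0 := by
  have h : (2 : F2) = 0 := by decide
  rw [← two_smul F2 v, h, zero_smul]

lemma neg_eq' {V : Type} [AddCommGroup V] [Module F2 V] (v : V) : -v = v := by
  rw [neg_eq_iff_add_eq_zero]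
  exact two_eq v

lemma rho_ga_ga (W : Rep.{0} F2 G4) (v : W.V) : W.ρ ga (W.ρ ga v) = v := by
  rw [← Module.End.mul_apply, ← map_mul, ga_sq, map_one]
  rfl

lemma rho_gb_gb (W : Rep.{0} F2 G4) (v : W.V) : W.ρ gb (W.ρ gb v) = v := by
  rw [← Module.End.mul_apply, ← map_mul, gb_sq, map_one]
  rfl

lemma rho_comm (W : Rep.{0} F2 G4) (v : W.V) : W.ρ gb (W.ρ ga v) = W.ρ ga (W.ρ gb v) := by
  rw [← Module.End.mul_apply, ← map_mul, gb_ga, map_mul]
  rfl

lemma XX_apply (W : Rep.{0} F2 G4) (v : W.V) : XX W v = W.ρ ga v + v := rfl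
lemma YY_apply (W : Rep.{0} F2 G4) (v : W.V) : YY W v = W.ρ gb v + v := rfl

lemma XX_XX (W : Rep.{0} F2 G4) (v : W.V) : XX W (XX W v) = 0 := by
  simp only [XX_apply, map_add, rho_ga_ga]
  have := two_eq (W.ρ ga v)
  have h2 := two_eq v
  calc v + W.ρ ga v + (W.ρ ga v + v) = (v + v) + (W.ρ ga v + W.ρ ga v) := by abel
    _ = 0 := by rw [this, h2, add_zero]

lemma YY_YY (W : Rep.{0} F2 G4) (v : W.V) : YY W (YY W v) = 0 := by
  simp only [YY_apply, map_add, rho_gb_gb]
  have := two_eq (W.ρ gb v)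
  have h2 := two_eq v
  calc v + W.ρ gb v + (W.ρ gb v + v) = (v + v) + (W.ρ gb v + W.ρ gb v) := by abel
    _ = 0 := by rw [this, h2, add_zero]

lemma XX_YY (W : Rep.{0} F2 G4) (v : W.V) : YY W (XX W v) = XX W (YY W v) := by
  simp only [YY_apply, XX_apply, map_add, rho_comm]
  abel

/-- the norm operator -/
noncomputable def nrm (W : Rep.{0} F2 G4) : W.V →ₗ[F2] W.V := XX W ∘ₗ YY W

lemma nrm_eq_sum (W : Rep.{0} F2 G4) (v : W.V) : ∑ g : G4, W.ρ g v = nrm W v := by
  rw [sum_G4]
  have h1 : W.ρ ((1, 1) : G4) = LinearMap.id := W.ρ.map_one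
  have h2 : W.ρ ((Multiplicative.ofAdd 1, Multiplicative.ofAdd 1) : G4) v =
      W.ρ ga (W.ρ gb v) := by
    rw [← ga_gb, map_mul]
    rfl
  rw [h1, h2]
  change v + W.ρ gb v + W.ρ ga v + W.ρ ga (W.ρ gb v) = W.ρ ga (W.ρ gb v + v) + (W.ρ gb v + v)
  rw [map_add]
  abel

/-- the candidate for the dimension of the core -/
noncomputable def cZ (W : Rep.{0} F2 G4) : ℤ :=
  (Module.finrank F2 W.V : ℤ) - 4 * (Module.finrank F2 (LinearMap.range (nrm W)) : ℤ)

/-- For a projective module the dimension is at most four times the rank of the norm. -/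
lemma finrank_le_of_projective (P : Rep.{0} F2 G4) [Projective P] [FiniteDimensional F2 P.V] :
    Module.finrank F2 P.V ≤ 4 * Module.finrank F2 (LinearMap.range (nrm P)) := by
  obtain ⟨θ, hθ⟩ := hig_of_projective P
  -- the fixed points are norms
  have hfix : LinearMap.ker (XX P) ⊓ LinearMap.ker (YY P) ≤ LinearMap.range (nrm P) := by
    intro v hv
    rw [Submodule.mem_inf, LinearMap.mem_ker, LinearMap.mem_ker, XX_apply, YY_apply] at hv
    have ha : P.ρ ga v = v := by
      have := hv.1
      rwa [add_eq_zero_iff_eq_neg, neg_eq'] at this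
    have hb : P.ρ gb v = v := by
      have := hv.2
      rwa [add_eq_zero_iff_eq_neg, neg_eq'] at this
    have hall : ∀ g : G4, P.ρ g v = v := by
      have h1 : P.ρ ((1, 1) : G4) = LinearMap.id := P.ρ.map_one
      intro g
      obtain ⟨g1, g2⟩ := g
      have h0 : ∀ x : Multiplicative (ZMod 2), x = 1 ∨ x = Multiplicative.ofAdd 1 := by decide
      rcases h0 g1 with rfl | rfl <;> rcases h0 g2 with rfl | rfl
      · rw [h1]; rfl
      · exact hb
      · exact ha
      · rw [← ga_gb, map_mul]
        change P.ρ ga (P.ρ gb v) = v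
        rw [hb, ha]
    refine ⟨θ v, ?_⟩
    rw [← nrm_eq_sum]
    conv_rhs => rw [← hθ v]
    refine Finset.sum_congr rfl fun g _ => ?_
    rw [hall]
  have h1 : Module.finrank F2 P.V ≤ 2 * Module.finrank F2 (LinearMap.ker (XX P)) := by
    have h := LinearMap.finrank_range_add_finrank_ker (XX P)
    have h' : Module.finrank F2 (LinearMap.range (XX P)) ≤
        Module.finrank F2 (LinearMap.ker (XX P)) := by
      apply Submodule.finrank_mono
      rintro _ ⟨v, rfl⟩
      exact XX_XX P v
    omega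
  have h2 : Module.finrank F2 (LinearMap.ker (XX P)) ≤
      2 * Module.finrank F2 (LinearMap.ker (XX P) ⊓ LinearMap.ker (YY P) : Submodule F2 P.V) := by
    let f : LinearMap.ker (XX P) →ₗ[F2] P.V := YY P ∘ₗ (LinearMap.ker (XX P)).subtype
    have h := LinearMap.finrank_range_add_finrank_ker f
    have h' : Module.finrank F2 (LinearMap.range f) ≤
        Module.finrank F2 (LinearMap.ker (XX P) ⊓ LinearMap.ker (YY P) : Submodule F2 P.V) := by
      apply Submodule.finrank_mono
      rintro _ ⟨v, rfl⟩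
      refine ⟨?_, YY_YY P v⟩
      change XX P (YY P v) = 0
      rw [← XX_YY]
      have : XX P v = 0 := v.2
      rw [this, map_zero]
    have h'' : Module.finrank F2 (LinearMap.ker f) ≤
        Module.finrank F2 (LinearMap.ker (XX P) ⊓ LinearMap.ker (YY P) : Submodule F2 P.V) := by
      let g : LinearMap.ker f →ₗ[F2]
          (LinearMap.ker (XX P) ⊓ LinearMap.ker (YY P) : Submodule F2 P.V) :=
        { toFun := fun v => ⟨v.1.1, v.1.2, v.2⟩
          map_add' := fun _ _ => rfl
          map_smul' := fun _ _ => rfl }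
      apply LinearMap.finrank_le_finrank_of_injective (f := g)
      intro v w hvw
      apply Subtype.ext
      apply Subtype.ext
      exact congrArg (fun z => z.1) hvw
    omega
  have h3 := Submodule.finrank_mono hfix
  omega

end Pool.Agent.TH8
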